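import Mathlib
import Pool.Agent.H765R3.Had.Grp

set_option autoImplicit false
set_option linter.unusedSectionVars false

/-!
# Blocks with many symmetries

The cone inequality for one block, and the fibre lemma.
-/

namespace Pool.Agent.T2H45.FP

open Set Filter Topology Module
open scoped InnerProductSpace

section block

variable {V : Type*} [NormedAddCommGroup V] [InnerProductSpace ℝ V] [FiniteDimensional ℝ V]

/-- For all unit vectors `u`, `v` some `g` in `Γ` has `⟪u, g v⟫ > c`. -/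
def Spread (c : ℝ) (Γ : Set (V ≃ₗᵢ[ℝ] V)) : Prop :=
  ∀ u v : V, ‖u‖ = 1 → ‖v‖ = 1 → ∃ g ∈ Γ, c < ⟪u, g v⟫_ℝ

lemma dirs (hm : 1 ≤ finrank ℝ V) : ∃ D : Finset V, D.card ≤ finrank ℝ V + 1 ∧
    (∀ t ∈ D, ‖t‖ = 1) ∧ ∀ u : V, ‖u‖ = 1 → ∃ t ∈ D, 1 / (finrank ℝ V : ℝ) ≤ ⟪u, t⟫_ℝ := by
  classical
  obtain ⟨D, h1, h2, h3⟩ := H765R3.Had.Grp.simplex_dirs (finrank ℝ V) hm
  let f : V ≃ₗᵢ[ℝ] EuclideanSpace ℝ (Fin (finrank ℝ V)) := (stdOrthonormalBasis ℝ V).repr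
  refine ⟨D.image f.symm, Finset.card_image_le.trans h1, ?_, ?_⟩
  · intro t ht
    obtain ⟨s, hs, rfl⟩ := Finset.mem_image.1 ht
    rw [f.symm.norm_map]
    exact h2 s hs
  · intro u hu
    obtain ⟨t, ht, h⟩ := h3 (f u) (by rw [f.norm_map, hu])
    refine ⟨_, Finset.mem_image_of_mem _ ht, ?_⟩
    rw [← f.inner_map_map, f.apply_symm_apply]
    exact h

/-- **The cone inequality**. -/
theorem cone (hm : 1 ≤ finrank ℝ V) (Γ : Set (V ≃ₗᵢ[ℝ] V))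
    (hΓ : Spread √(1 - 1 / (finrank ℝ V : ℝ) ^ 2) Γ) :
    ∃ D : Finset V, D.card ≤ finrank ℝ V + 1 ∧ ∃ c : ℝ, 0 < c ∧ ∀ u : V, u ≠ 0 →
      ∃ t ∈ D, ∀ x : V, (∀ g ∈ Γ, ⟪u, g x⟫_ℝ ≤ ⟪u, x⟫_ℝ) → c * ‖x‖ ≤ ⟪t, x⟫_ℝ := by
  classical
  obtain ⟨D, hD1, hD2, hD3⟩ := dirs hm
  have hm0 : (1 : ℝ) ≤ finrank ℝ V := by exact_mod_cast hm
  set a : ℝ := 1 / (finrank ℝ V : ℝ) with ha
  have ha0 : 0 < a := by positivity
  have ha1 : a ≤ 1 := by rw [ha, div_le_one (by linarith)]; exact hm0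
  set b : ℝ := √(1 - 1 / (finrank ℝ V : ℝ) ^ 2) with hb
  have hb0 : 0 ≤ b := Real.sqrt_nonneg _
  have e1 : 1 / (finrank ℝ V : ℝ) ^ 2 = a ^ 2 := by rw [ha, div_pow, one_pow]
  have hab : a ^ 2 + b ^ 2 = 1 := by
    rw [hb, Real.sq_sqrt (by rw [e1]; nlinarith), e1]
    ring
  -- a lower bound for each vertex
  have key : ∀ t ∈ D, ∃ c : ℝ, 0 < c ∧ ∀ u x : V, ‖u‖ = 1 → ‖x‖ = 1 →
      (∀ g ∈ Γ, ⟪u, g x⟫_ℝ ≤ ⟪u, x⟫_ℝ) → a ≤ ⟪u, t⟫_ℝ → c ≤ ⟪t, x⟫_ℝ := by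
    intro t ht
    set A : Set (V × V) := (Metric.sphere 0 1 ×ˢ Metric.sphere 0 1) ∩
      ((⋂ g ∈ Γ, {q : V × V | ⟪q.1, g q.2⟫_ℝ ≤ ⟪q.1, q.2⟫_ℝ}) ∩ {q | a ≤ ⟪q.1, t⟫_ℝ}) with hA
    have hAc : IsCompact A := by
      refine ((isCompact_sphere 0 1).prod (isCompact_sphere 0 1)).inter_right ?_
      refine (isClosed_biInter fun g _ => isClosed_le ?_ (by fun_prop)).inter
        (isClosed_le continuous_const (by fun_prop))
      exact continuous_fst.inner (g.continuous.comp continuous_snd)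
    rcases A.eq_empty_or_nonempty with hE | hN
    · refine ⟨1, one_pos, fun u x hu hx hg hut => ?_⟩
      have : (u, x) ∈ A := by
        refine ⟨⟨by simpa using hu, by simpa using hx⟩, ?_, hut⟩
        simp only [mem_iInter]
        exact hg
      rw [hE] at this
      exact absurd this (notMem_empty _)
    · obtain ⟨⟨u₀, x₀⟩, h0, hmin⟩ := hAc.exists_isMinOn hN (f := fun q => ⟪t, q.2⟫_ℝ) (by fun_prop)
      have hpos : 0 < ⟪t, x₀⟫_ℝ := by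
        obtain ⟨⟨h1, h2⟩, h3, h4⟩ := h0
        have h1' : ‖u₀‖ = 1 := by simpa using h1
        have h2' : ‖x₀‖ = 1 := by simpa using h2
        obtain ⟨g, hg, h5⟩ := hΓ u₀ x₀ h1' h2'
        simp only [mem_iInter] at h3
        have h6 : ⟪u₀, g x₀⟫_ℝ ≤ ⟪u₀, x₀⟫_ℝ := h3 g hg
        exact H765R3.Had.Grp.angle (hD2 t ht) h1' h2' ha0 hb0 hab h4 (h5.trans_le h6)
      refine ⟨_, hpos, fun u x hu hx hg hut => ?_⟩
      have : (u, x) ∈ A := by
        refine ⟨⟨by simpa using hu, by simpa using hx⟩, ?_, hut⟩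
        simp only [mem_iInter]
        exact hg
      exact hmin this
  choose! c hc0 hc using key
  have hVn : Nontrivial V := Module.nontrivial_of_finrank_pos (R := ℝ) (by omega)
  obtain ⟨u₁, hu₁⟩ := exists_norm_eq V (show (0 : ℝ) ≤ 1 by norm_num)
  obtain ⟨t₁, ht₁, -⟩ := hD3 u₁ hu₁
  obtain ⟨t₂, ht₂, hmin⟩ := D.exists_min_image c ⟨t₁, ht₁⟩
  refine ⟨D, hD1, c t₂, hc0 t₂ ht₂, fun u hu => ?_⟩
  have hun : 0 < ‖u‖ := norm_pos_iff.2 hu
  have hu1 : ‖(‖u‖⁻¹ • u)‖ = 1 := by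
    rw [norm_smul, norm_inv, norm_norm, inv_mul_cancel₀ hun.ne']
  obtain ⟨t, ht, hut⟩ := hD3 _ hu1
  refine ⟨t, ht, fun x hx => ?_⟩
  rcases eq_or_ne x 0 with rfl | hx0
  · simp
  have hxn : 0 < ‖x‖ := norm_pos_iff.2 hx0
  have hx1 : ‖(‖x‖⁻¹ • x)‖ = 1 := by
    rw [norm_smul, norm_inv, norm_norm, inv_mul_cancel₀ hxn.ne']
  have h1 := hc t ht _ _ hu1 hx1 (fun g hg => by
    rw [map_smul, real_inner_smul_left, real_inner_smul_left, real_inner_smul_right,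
      real_inner_smul_right]
    have := hx g hg
    gcongr) hut
  rw [real_inner_smul_right] at h1
  have h2 : c t₂ ≤ ‖x‖⁻¹ * ⟪t, x⟫_ℝ := (hmin t ht).trans h1
  calc c t₂ * ‖x‖ ≤ ‖x‖⁻¹ * ⟪t, x⟫_ℝ * ‖x‖ := by gcongr
    _ = ⟪t, x⟫_ℝ := by field_simp

end block

variable {E : Type*} [NormedAddCommGroup E] [InnerProductSpace ℝ E] [FiniteDimensional ℝ E]

/-- the projection as a vector of `E` -/
noncomputable def pr (V : Submodule ℝ E) (x : E) : E := (V.orthogonalProjectionOnto x : E)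

lemma pr_mem (V : Submodule ℝ E) (x : E) : pr V x ∈ V := Submodule.coe_mem _

lemma inner_pr_left (V : Submodule ℝ E) {v : E} (hv : v ∈ V) (x : E) :
    ⟪v, pr V x⟫_ℝ = ⟪v, x⟫_ℝ := by
  have := Submodule.inner_orthogonalProjectionOnto_eq_of_mem_left (K := V) ⟨v, hv⟩ x
  rw [← this, Submodule.coe_inner]
  rfl

lemma inner_pr_right (V : Submodule ℝ E) {v : E} (hv : v ∈ V) (x : E) :
    ⟪pr V x, v⟫_ℝ = ⟪x, v⟫_ℝ := by
  rw [real_inner_comm, inner_pr_left V hv, real_inner_comm]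

/-- `K` is invariant under the maps `g` in `Γ` applied to the component in `V`. -/
def Inv (V : Submodule ℝ E) (Γ : Set (V ≃ₗᵢ[ℝ] V)) (K : Set E) : Prop :=
  ∀ g ∈ Γ, ∀ x ∈ K, x + ((g (V.orthogonalProjectionOnto x) : E) -
    (V.orthogonalProjectionOnto x : E)) ∈ K

/-- **The fibre lemma**. -/
theorem fibre {V : Submodule ℝ E} {Γ : Set (V ≃ₗᵢ[ℝ] V)} {c : ℝ} (hc : 0 ≤ c)
    (hΓ : Spread c Γ) {K : Set E} (hK : Convex ℝ K) (hKc : IsCompact K) (hinv : Inv V Γ K) {x : E}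
    (hx : x ∈ K) : x - pr V x ∈ K := by
  set C : Set V := {v | x - pr V x + (v : E) ∈ K} with hC
  have hCc : IsCompact C := by
    have hcl : Topology.IsClosedEmbedding (fun z : V => (x - pr V x) + (z : E)) :=
      (Homeomorph.addLeft (x - pr V x)).isClosedEmbedding.comp
        V.closed_of_finiteDimensional.isClosedEmbedding_subtypeVal
    exact hcl.isCompact_preimage hKc
  have hCn : C.Nonempty := ⟨V.orthogonalProjectionOnto x, by
    show x - pr V x + pr V x ∈ K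
    rwa [sub_add_cancel]⟩
  have hproj : ∀ v : V, V.orthogonalProjectionOnto (x - pr V x + (v : E)) = v := by
    intro v
    apply ext_inner_left ℝ
    intro w
    rw [Submodule.inner_orthogonalProjectionOnto_eq_of_mem_left, inner_add_right, inner_sub_right,
      inner_pr_left V w.2, sub_self, zero_add, Submodule.coe_inner]
  have hCg : ∀ g ∈ Γ, ∀ v ∈ C, g v ∈ C := by
    intro g hg v hv
    have h1 := hinv g hg _ hv
    rw [hproj] at h1
    show x - pr V x + (g v : E) ∈ K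
    convert h1 using 1
    abel
  obtain ⟨z, hz, hmin⟩ := hCc.exists_isMinOn hCn (f := fun v : V => ‖v‖) (by fun_prop)
  rcases eq_or_ne z 0 with h0 | h0
  · rw [h0] at hz
    have : x - pr V x + ((0 : V) : E) ∈ K := hz
    simpa using this
  · exfalso
    have hzn : 0 < ‖z‖ := norm_pos_iff.2 h0
    have hz1 : ‖(‖z‖⁻¹ • z)‖ = 1 := by
      rw [norm_smul, norm_inv, norm_norm, inv_mul_cancel₀ hzn.ne']
    obtain ⟨g, hg, h1⟩ := hΓ (-(‖z‖⁻¹ • z)) (‖z‖⁻¹ • z) (by rw [norm_neg, hz1]) hz1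
    have h2 : ⟪z, g z⟫_ℝ < 0 := by
      rw [inner_neg_left, map_smul, real_inner_smul_left, real_inner_smul_right] at h1
      have h3 : 0 < ‖z‖⁻¹ := inv_pos.2 hzn
      by_contra h4
      push Not at h4
      have h5 : 0 ≤ ‖z‖⁻¹ * (‖z‖⁻¹ * ⟪z, g z⟫_ℝ) := by positivity
      linarith
    have hmid : (1 / 2 : ℝ) • z + (1 / 2 : ℝ) • g z ∈ C := by
      have h3 := hK hz (hCg g hg z hz) (a := 1 / 2) (b := 1 / 2) (by norm_num) (by norm_num)
        (by norm_num)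
      show x - pr V x + (((1 / 2 : ℝ) • z + (1 / 2 : ℝ) • g z : V) : E) ∈ K
      convert h3 using 1
      rw [Submodule.coe_add, Submodule.coe_smul, Submodule.coe_smul]
      module
    have h4 : ‖z‖ ≤ ‖(1 / 2 : ℝ) • z + (1 / 2 : ℝ) • g z‖ := hmin hmid
    have h5 : ‖(1 / 2 : ℝ) • z + (1 / 2 : ℝ) • g z‖ ^ 2
        = (1 / 2) * ‖z‖ ^ 2 + (1 / 2) * ⟪z, g z⟫_ℝ := by
      rw [← smul_add, norm_smul, mul_pow, norm_add_sq_real, g.norm_map]
      norm_num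
      ring
    have h6 : ‖z‖ ^ 2 ≤ ‖(1 / 2 : ℝ) • z + (1 / 2 : ℝ) • g z‖ ^ 2 := by gcongr
    rw [h5] at h6
    nlinarith

end Pool.Agent.T2H45.FP
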