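import Pool.Agent.T2H45.FP.A
import Pool.Agent.R753.SJ.A

set_option autoImplicit false
set_option linter.unusedSectionVars false

/-!
# Blocks with many symmetries and a free part

The separation theorem.
-/

namespace Pool.Agent.T2H45.FP

open Set Filter Topology Module
open scoped InnerProductSpace
open Pool.Agent.R753.SJ

variable {E : Type*} [NormedAddCommGroup E] [InnerProductSpace ℝ E] [FiniteDimensional ℝ E]

lemma ulim {α : Type*} [TopologicalSpace α] {s : Set α} (hs : IsCompact s) (f : ℕ → α)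
    (hf : ∀ n, f n ∈ s) : ∃ a ∈ s, Tendsto f (hyperfilter ℕ : Filter ℕ) (𝓝 a) := by
  obtain ⟨a, ha, h⟩ := hs.ultrafilter_le_nhds' ((hyperfilter ℕ).map f) (by
    rw [Ultrafilter.mem_map]
    exact Filter.univ_mem' hf)
  exact ⟨a, ha, h⟩

section

variable {ι : Type} [Fintype ι] (V : ι → Submodule ℝ E)

lemma pr_add (U : Submodule ℝ E) (x y : E) : pr U (x + y) = pr U x + pr U y := by
  simp [pr]

lemma pr_sub (U : Submodule ℝ E) (x y : E) : pr U (x - y) = pr U x - pr U y := by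
  simp [pr]

lemma pr_self (U : Submodule ℝ E) {x : E} (hx : x ∈ U) : pr U x = x := by
  simp [pr, Submodule.starProjection_eq_self_iff.2 hx]

lemma pr_zero_of_orth (U : Submodule ℝ E) {x : E} (hx : ∀ v ∈ U, ⟪v, x⟫_ℝ = 0) : pr U x = 0 := by
  have h1 : ⟪pr U x, pr U x⟫_ℝ = 0 := by
    rw [inner_pr_left U (pr_mem U x), hx _ (pr_mem U x)]
  exact inner_self_eq_zero.1 h1

/-- the orthogonal complement of all the blocks -/
noncomputable def WW : Submodule ℝ E := (⨆ i, V i)ᗮ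

lemma mem_WW {x : E} : x ∈ WW V ↔ ∀ i, pr (V i) x = 0 := by
  constructor
  · intro hx i
    apply pr_zero_of_orth
    intro v hv
    exact (Submodule.mem_orthogonal _ _).1 hx v (Submodule.mem_iSup_of_mem i hv)
  · intro hx
    rw [WW, Submodule.mem_orthogonal]
    intro u hu
    induction hu using Submodule.iSup_induction' with
    | mem i v hv =>
      rw [← inner_pr_left (V i) hv, hx i, inner_zero_right]
    | zero => simp
    | add a b _ _ ha hb => rw [inner_add_left, ha, hb, add_zero]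

variable (hV : ∀ i j, i ≠ j → ∀ x ∈ V i, ∀ y ∈ V j, ⟪x, y⟫_ℝ = 0)

include hV in
lemma pr_sum [DecidableEq ι] (S : Finset ι) (x : E) (i : ι) :
    pr (V i) (x - ∑ j ∈ S, pr (V j) x) = if i ∈ S then 0 else pr (V i) x := by
  induction S using Finset.induction_on with
  | empty => simp
  | insert j S hj ih =>
    rw [Finset.sum_insert hj]
    have e1 : x - (pr (V j) x + ∑ k ∈ S, pr (V k) x)
        = (x - ∑ k ∈ S, pr (V k) x) - pr (V j) x := by abel
    rw [e1, pr_sub, ih]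
    by_cases hij : i = j
    · subst hij
      rw [if_neg hj, if_pos (Finset.mem_insert_self _ _), pr_self _ (pr_mem _ _), sub_self]
    · have h1 : pr (V i) (pr (V j) x) = 0 :=
        pr_zero_of_orth _ fun v hv => hV i j hij v hv _ (pr_mem _ _)
      rw [h1, sub_zero]
      by_cases hiS : i ∈ S
      · rw [if_pos hiS, if_pos (Finset.mem_insert_of_mem hiS)]
      · rw [if_neg hiS, if_neg (by simp [hij, hiS])]

include hV in
lemma fibreS [DecidableEq ι] {Γ : ∀ i, Set (V i ≃ₗᵢ[ℝ] V i)} {c : ι → ℝ} (hc : ∀ i, 0 ≤ c i)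
    (hΓ : ∀ i, Spread (c i) (Γ i)) {K : Set E} (hK : Convex ℝ K) (hKc : IsCompact K)
    (hinv : ∀ i, Inv (V i) (Γ i) K) {x : E} (hx : x ∈ K) (S : Finset ι) :
    x - ∑ j ∈ S, pr (V j) x ∈ K := by
  induction S using Finset.induction_on with
  | empty => simpa using hx
  | insert j S hj ih =>
    have h1 := fibre (hc j) (hΓ j) hK hKc (hinv j) ih
    rw [pr_sum V hV, if_neg hj] at h1
    rw [Finset.sum_insert hj]
    convert h1 using 1
    abel

include hV in
/-- **Main theorem**. -/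
theorem main (hm : ∀ i, 1 ≤ finrank ℝ (V i)) (Γ : ∀ i, Set (V i ≃ₗᵢ[ℝ] V i))
    (hΓ : ∀ i, Spread √(1 - 1 / (finrank ℝ (V i) : ℝ) ^ 2) (Γ i)) (hW : WW V ≠ ⊥)
    {K : Set E} (hK : Convex ℝ K) (hKc : IsCompact K) (h0 : (0 : E) ∈ interior K)
    (hinv : ∀ i, Inv (V i) (Γ i) K) {N : ℕ} (hs : Sepd N {w : WW V | (w : E) ∈ K} 0) :
    Sepd ((∏ i, (finrank ℝ (V i) + 2)) * N) K 0 := by
  classical
  obtain ⟨H, hHc, hHn, hH⟩ := hs
  choose D hDc c hc0 hcone using fun i => cone (hm i) (Γ i) (hΓ i)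
  set H' : Finset (WW V × ℝ) := H.filter fun h => 0 < h.2 with hH'
  set T : Finset (ι → E) := Fintype.piFinset fun i => insert 0 ((D i).image (Subtype.val : V i → E))
    with hT
  have hTc : T.card ≤ ∏ i, (finrank ℝ (V i) + 2) := by
    rw [hT, Fintype.card_piFinset]
    refine Finset.prod_le_prod' fun i _ => ?_
    refine (Finset.card_insert_le _ _).trans ?_
    have := (Finset.card_image_le (s := D i) (f := (Subtype.val : V i → E))).trans (hDc i)
    omega
  have hKn : ∀ u : E, u ≠ 0 → ∃ y ∈ K, 0 < ⟪u, y⟫_ℝ := by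
    intro u hu
    obtain ⟨y, hy, h⟩ := exists_pos h0 hu
    exact ⟨y, hy, by simpa using h⟩
  obtain ⟨R, hR⟩ : ∃ R : ℝ, ∀ y ∈ K, ‖y‖ ≤ R := by
    obtain ⟨R, hR⟩ := hKc.isBounded.subset_closedBall (0 : E)
    exact ⟨R, fun y hy => by simpa using hR hy⟩
  have hR0 : 0 ≤ R := (norm_nonneg _).trans (hR 0 (interior_subset h0))
  -- the section
  have hWorth : ∀ w : WW V, ∀ i, ∀ v ∈ V i, ⟪(w : E), v⟫_ℝ = 0 := by
    intro w i v hv
    rw [← inner_pr_right (V i) hv, (mem_WW V).1 w.2 i, inner_zero_left]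
  have hprojW : ∀ (u : E) (w : WW V),
      ⟪(WW V).orthogonalProjectionOnto u, w⟫_ℝ = ⟪u, (w : E)⟫_ℝ := by
    intro u w
    rw [Submodule.inner_orthogonalProjectionOnto_eq_of_mem_right]
  have hH'n : H'.Nonempty := by
    obtain ⟨w, hw, hw0⟩ := (Submodule.ne_bot_iff _).1 hW
    have hcl : Topology.IsClosedEmbedding (fun z : WW V => (z : E)) :=
      (WW V).closed_of_finiteDimensional.isClosedEmbedding_subtypeVal
    have hcomp : IsCompact {w : WW V | (w : E) ∈ K} := hcl.isCompact_preimage hKc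
    obtain ⟨x₀, hx₀, hmax⟩ := hcomp.exists_isMaxOn
      ⟨0, by show ((0 : WW V) : E) ∈ K; simpa using interior_subset h0⟩
      (f := fun x : WW V => ⟪(⟨w, hw⟩ : WW V), x⟫_ℝ) (by fun_prop)
    obtain ⟨h, hh, h1, -⟩ := hH ⟨w, hw⟩ x₀ (fun h => hw0 (congrArg Subtype.val h)) hx₀
      (fun y hy => hmax hy)
    rw [inner_zero_right] at h1
    exact ⟨h, Finset.mem_filter.2 ⟨hh, h1⟩⟩
  -- the choice of the directions for a functional
  have hsel : ∀ u : E, ∃ t ∈ T, ∀ i, (pr (V i) u = 0 → t i = 0) ∧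
      ∀ x ∈ K, (∀ y ∈ K, ⟪u, y⟫_ℝ ≤ ⟪u, x⟫_ℝ) →
        0 ≤ ⟪t i, x⟫_ℝ ∧ (pr (V i) u ≠ 0 → c i * ‖pr (V i) x‖ ≤ ⟪t i, x⟫_ℝ) := by
    intro u
    have h1 : ∀ i, ∃ t ∈ insert 0 ((D i).image (Subtype.val : V i → E)), (pr (V i) u = 0 → t = 0) ∧
        ∀ x ∈ K, (∀ y ∈ K, ⟪u, y⟫_ℝ ≤ ⟪u, x⟫_ℝ) →
          0 ≤ ⟪t, x⟫_ℝ ∧ (pr (V i) u ≠ 0 → c i * ‖pr (V i) x‖ ≤ ⟪t, x⟫_ℝ) := by
      intro i
      by_cases hu : pr (V i) u = 0
      · refine ⟨0, Finset.mem_insert_self _ _, fun _ => rfl, fun x hx hmax => ?_⟩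
        rw [inner_zero_left]
        exact ⟨le_rfl, fun h => absurd hu h⟩
      · set ui : V i := (V i).orthogonalProjectionOnto u with hui
        have hui0 : ui ≠ 0 := fun h => hu (by rw [pr, ← hui, h]; rfl)
        obtain ⟨t, ht, htx⟩ := hcone i ui hui0
        have hin : ∀ v : V i, ⟪ui, v⟫_ℝ = ⟪u, (v : E)⟫_ℝ := by
          intro v
          rw [hui, Submodule.inner_orthogonalProjectionOnto_eq_of_mem_right]
        have key : ∀ x ∈ K, (∀ y ∈ K, ⟪u, y⟫_ℝ ≤ ⟪u, x⟫_ℝ) →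
            c i * ‖pr (V i) x‖ ≤ ⟪(t : E), x⟫_ℝ := by
          intro x hx hmax
          have h2 := htx ((V i).orthogonalProjectionOnto x) (fun g hg => by
            rw [hin, hin]
            have h3 := hmax _ (hinv i g hg x hx)
            rw [inner_add_right, inner_sub_right] at h3
            linarith)
          have h4 : ⟪t, (V i).orthogonalProjectionOnto x⟫_ℝ = ⟪(t : E), x⟫_ℝ := by
            rw [Submodule.inner_orthogonalProjectionOnto_eq_of_mem_left]
          rw [h4] at h2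
          exact h2
        refine ⟨(t : E), Finset.mem_insert_of_mem (Finset.mem_image_of_mem _ ht),
          fun h => absurd h hu, fun x hx hmax => ⟨?_, fun _ => key x hx hmax⟩⟩
        exact (mul_nonneg (hc0 i).le (norm_nonneg _)).trans (key x hx hmax)
    choose t ht1 ht2 using h1
    exact ⟨t, Fintype.mem_piFinset.2 ht1, ht2⟩
  -- uniformity
  obtain ⟨n, hn⟩ : ∃ n : ℕ, ∀ u : E, ‖u‖ = 1 → ∃ t ∈ T, ∃ h ∈ H', ∀ x ∈ K,
      (∀ y ∈ K, ⟪u, y⟫_ℝ ≤ ⟪u, x⟫_ℝ) → h.2 < n * ⟪∑ i, t i, x⟫_ℝ + ⟪(h.1 : E), x⟫_ℝ := by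
    by_contra hcon
    push Not at hcon
    choose u hu1 hbad using hcon
    choose t htT ht using fun n => hsel (u n)
    have hx : ∀ n, ∀ h : H', ∃ x ∈ K, (∀ y ∈ K, ⟪u n, y⟫_ℝ ≤ ⟪u n, x⟫_ℝ) ∧
        n * ⟪∑ i, t n i, x⟫_ℝ + ⟪(h.1.1 : E), x⟫_ℝ ≤ h.1.2 := fun n h =>
      hbad n (t n) (htT n) h.1 h.2
    choose x hxK hxmax hxle using hx
    set 𝒰 : Filter ℕ := (hyperfilter ℕ : Filter ℕ) with h𝒰
    have hUtop : 𝒰 ≤ atTop := Nat.hyperfilter_le_atTop
    obtain ⟨v, hv, hvlim⟩ := ulim (isCompact_sphere (0 : E) 1) u (fun n => by simpa using hu1 n)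
    have hv1 : ‖v‖ = 1 := by simpa using hv
    have hv0 : v ≠ 0 := by
      intro h
      rw [h, norm_zero] at hv1
      exact zero_ne_one hv1
    choose z hzK hzlim using fun h : H' => ulim hKc (fun n => x n h) (fun n => hxK n h)
    have hzmax : ∀ h : H', ∀ y ∈ K, ⟪v, y⟫_ℝ ≤ ⟪v, z h⟫_ℝ := by
      intro h y hy
      exact le_of_tendsto_of_tendsto' (hvlim.inner tendsto_const_nhds)
        (hvlim.inner (hzlim h)) (fun n => hxmax n h y hy)
    have hsum : ∀ n, ∀ h : H', ∀ i, ⟪t n i, x n h⟫_ℝ ≤ ⟪∑ i, t n i, x n h⟫_ℝ := by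
      intro n h i
      rw [sum_inner]
      exact Finset.single_le_sum (f := fun i => ⟪t n i, x n h⟫_ℝ)
        (fun j _ => ((ht n j).2 _ (hxK n h) (hxmax n h)).1) (Finset.mem_univ i)
    have hsum0 : ∀ n, ∀ h : H', 0 ≤ ⟪∑ i, t n i, x n h⟫_ℝ := by
      intro n h
      rw [sum_inner]
      exact Finset.sum_nonneg fun j _ => ((ht n j).2 _ (hxK n h) (hxmax n h)).1
    have hzw : ∀ h : H', ⟪(h.1.1 : E), z h⟫_ℝ ≤ h.1.2 := by
      intro h
      refine le_of_tendsto' (tendsto_const_nhds.inner (hzlim h)) fun n => ?_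
      have h1 := hxle n h
      have h2 := mul_nonneg (Nat.cast_nonneg n : (0 : ℝ) ≤ n) (hsum0 n h)
      linarith
    -- in each block the functional or the points vanish
    have hdich : ∀ i, pr (V i) v = 0 ∨ ∀ h : H', pr (V i) (z h) = 0 := by
      intro i
      have hprc : Continuous (pr (V i)) := by
        unfold pr
        fun_prop
      by_cases hev : ∀ᶠ n in 𝒰, pr (V i) (u n) = 0
      · left
        have h1 : Tendsto (fun n => pr (V i) (u n)) 𝒰 (𝓝 (pr (V i) v)) :=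
          (hprc.tendsto v).comp hvlim
        have h2 : Tendsto (fun n => pr (V i) (u n)) 𝒰 (𝓝 0) :=
          tendsto_const_nhds.congr' (hev.mono fun n hn => hn.symm)
        exact tendsto_nhds_unique h1 h2
      · right
        intro h
        have hev' : ∀ᶠ n in 𝒰, ¬ pr (V i) (u n) = 0 := Ultrafilter.eventually_not.2 hev
        have h1 : Tendsto (fun n => ‖pr (V i) (x n h)‖) 𝒰 (𝓝 ‖pr (V i) (z h)‖) :=
          ((hprc.norm).tendsto _).comp (hzlim h)
        set B : ℝ := |h.1.2| + ‖(h.1.1 : E)‖ * R with hB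
        have h2 : Tendsto (fun n : ℕ => B / c i * (1 / (n : ℝ))) 𝒰 (𝓝 (B / c i * 0)) :=
          (tendsto_one_div_atTop_nhds_zero_nat.mono_left hUtop).const_mul _
        rw [mul_zero] at h2
        have h3 : ∀ᶠ n in 𝒰, ‖pr (V i) (x n h)‖ ≤ B / c i * (1 / (n : ℝ)) := by
          filter_upwards [hev', hUtop (eventually_gt_atTop 0)] with n hn1 hn2
          have hn2' : (0 : ℝ) < n := by exact_mod_cast hn2
          have h4 := ((ht n i).2 _ (hxK n h) (hxmax n h)).2 hn1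
          have h5 := hxle n h
          have h6 : -(‖(h.1.1 : E)‖ * R) ≤ ⟪(h.1.1 : E), x n h⟫_ℝ := by
            have h7 := abs_real_inner_le_norm (h.1.1 : E) (x n h)
            have h8 : ‖(h.1.1 : E)‖ * ‖x n h‖ ≤ ‖(h.1.1 : E)‖ * R := by
              gcongr
              exact hR _ (hxK n h)
            have h9 := neg_abs_le ⟪(h.1.1 : E), x n h⟫_ℝ
            linarith
          have h7 : (n : ℝ) * (c i * ‖pr (V i) (x n h)‖) ≤ B := by
            have h8 : (n : ℝ) * (c i * ‖pr (V i) (x n h)‖) ≤ n * ⟪∑ i, t n i, x n h⟫_ℝ := by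
              gcongr
              exact h4.trans (hsum n h i)
            have h9 := le_abs_self h.1.2
            linarith
          rw [div_mul_div_comm, mul_one, le_div_iff₀ (mul_pos (hc0 i) hn2')]
          linarith
        have h4 := le_of_tendsto_of_tendsto h1 h2 h3
        exact norm_le_zero_iff.1 h4
    -- the points in the section
    set z' : H' → E := fun h => z h - ∑ j ∈ Finset.univ, pr (V j) (z h) with hz'
    have hz'K : ∀ h, z' h ∈ K := fun h =>
      fibreS V hV (fun i => Real.sqrt_nonneg _) hΓ hK hKc hinv (hzK h) Finset.univ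
    have hz'W : ∀ h, z' h ∈ WW V := by
      intro h
      rw [mem_WW]
      intro i
      simp only [hz']
      rw [pr_sum V hV, if_pos (Finset.mem_univ i)]
    have hz'v : ∀ h, ⟪v, z' h⟫_ℝ = ⟪v, z h⟫_ℝ := by
      intro h
      simp only [hz']
      rw [inner_sub_right, inner_sum, Finset.sum_eq_zero, sub_zero]
      intro i _
      rcases hdich i with h1 | h1
      · rw [← inner_pr_right (V i) (pr_mem _ _), h1, inner_zero_left]
      · rw [h1 h, inner_zero_right]
    have hz'w : ∀ h : H', ⟪(h.1.1 : E), z' h⟫_ℝ ≤ h.1.2 := by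
      intro h
      simp only [hz']
      rw [inner_sub_right, inner_sum, Finset.sum_eq_zero, sub_zero]
      · exact hzw h
      · intro i _
        exact hWorth h.1.1 i _ (pr_mem _ _)
    obtain ⟨h₀, hh₀⟩ := hH'n
    set a : WW V := ⟨z' ⟨h₀, hh₀⟩, hz'W _⟩ with ha
    have hva : ∀ y ∈ K, ⟪v, y⟫_ℝ ≤ ⟪v, (a : E)⟫_ℝ := by
      intro y hy
      show ⟪v, y⟫_ℝ ≤ ⟪v, z' ⟨h₀, hh₀⟩⟫_ℝ
      rw [hz'v]
      exact hzmax _ y hy
    obtain ⟨h, hh, h1, h2⟩ := hH ((WW V).orthogonalProjectionOnto v) a (by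
      intro hz
      obtain ⟨y, hy, hpos⟩ := hKn v hv0
      have h3 := hva y hy
      rw [← hprojW, hz, inner_zero_left] at h3
      linarith) (hz'K _) (fun y hy => by
        rw [hprojW, hprojW]
        exact hva _ hy)
    rw [inner_zero_right] at h1
    have hhH : h ∈ H' := Finset.mem_filter.2 ⟨hh, h1⟩
    have h3 := h2 ⟨z' ⟨h, hhH⟩, hz'W _⟩ (hz'K _) (by
      rw [hprojW, hprojW]
      apply le_antisymm
      · exact hva _ (hz'K _)
      · show ⟪v, z' ⟨h₀, hh₀⟩⟫_ℝ ≤ ⟪v, z' ⟨h, hhH⟩⟫_ℝ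
        rw [hz'v, hz'v]
        exact hzmax _ _ (hzK _))
    have h4 := hz'w ⟨h, hhH⟩
    rw [Submodule.coe_inner] at h3
    exact absurd h3 (not_lt.2 h4)
  -- the hyperplanes
  refine ⟨((T ×ˢ H').image fun q => ((n : ℝ) • (∑ i, q.1 i) + (q.2.1 : E), q.2.2)).filter
    fun h => h.1 ≠ 0, ?_, ?_, ?_⟩
  · refine (Finset.card_filter_le _ _).trans (Finset.card_image_le.trans ?_)
    rw [Finset.card_product]
    exact Nat.mul_le_mul hTc ((Finset.card_filter_le _ _).trans hHc)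
  · intro h hh
    exact (Finset.mem_filter.1 hh).2
  · intro u x₀ hu hx₀ hmax
    have hun : 0 < ‖u‖ := norm_pos_iff.2 hu
    obtain ⟨t, ht, h, hh, hx⟩ := hn (‖u‖⁻¹ • u) (by
      rw [norm_smul, norm_inv, norm_norm, inv_mul_cancel₀ hun.ne'])
    have hx' : ∀ x ∈ K, ⟪u, x⟫_ℝ = ⟪u, x₀⟫_ℝ →
        h.2 < ⟪(n : ℝ) • (∑ i, t i) + (h.1 : E), x⟫_ℝ := by
      intro x hxK hxu
      rw [inner_add_left, real_inner_smul_left]
      refine hx x hxK fun y hy => ?_
      rw [real_inner_smul_left, real_inner_smul_left]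
      have h1 := hmax y hy
      rw [← hxu] at h1
      gcongr
    have hpos : 0 < h.2 := (Finset.mem_filter.1 hh).2
    refine ⟨_, Finset.mem_filter.2 ⟨Finset.mem_image_of_mem _ (Finset.mk_mem_product ht hh), ?_⟩,
      ?_, hx'⟩
    · intro h0
      have h1 := hx' x₀ hx₀ rfl
      have h2 : (n : ℝ) • (∑ i, t i) + (h.1 : E) = 0 := h0
      rw [h2, inner_zero_left] at h1
      linarith
    · rw [inner_zero_right]
      exact hpos

end

end Pool.Agent.T2H45.FP
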